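import Pool.Agent.Q226.FL2.OneDefs
import Pool.Agent.H525R4.Mono.Sum

/-!
# 3SUM-Indexing for data structures on literals: definitions

Two arrays (finite sets of integers from `0, …, N`) are given by bits: the position `((b, v), k)`
(array `b`, integer `v`, tag `k < K`) contains `1` if `v` is in the array `b` and this was written
down with the tag `k`.
-/

set_option autoImplicit false

open Finset

namespace Pool.Agent.Q226.DSS

open Pool.Agent.Q226.FLT Pool.Agent.Q226.FL2 Pool.Agent.H525R4.Mono

/-- the positions: an array, an integer and a tag -/
abbrev Position (N K : ℕ) : Type := (Bool × Fin (N + 1)) × Fin K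

/-- each pair of an array and an integer has at most one tag -/
def OneTag {N K : ℕ} (x : Position N K → Bool) : Prop :=
  ∀ e k k', x (e, k) = true → x (e, k') = true → k = k'

open Classical in
/-- the array `b`: the integers that were written down with some tag -/
noncomputable def array {N K : ℕ} (x : Position N K → Bool) (b : Bool) : Finset ℤ :=
  (univ.filter fun v : Fin (N + 1) => ∃ k, x ((b, v), k) = true).image
    fun v : Fin (N + 1) => ((v : ℕ) : ℤ)

/-- the literals of the array `b` -/
def part {N K : ℕ} (b : Bool) (y : Position N K × Bool → Bool) :
    (Fin (N + 1) × Fin K) × Bool → Bool :=
  fun q => y (((b, q.1.1), q.1.2), q.2)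

/-- A data structure on the literals with `s` cells and `2 r` free cells. `cell c y` is the real
number in cell `c` after the preprocessing if the literals (bits and negated bits) have the values
`y`, an arbitrary nondecreasing function of `y`; the free cells contain arbitrary nondecreasing
functions of the literals of one array. If the contents of the memory are `M`, then the query `z`
reads the places `reads z M` (they may depend on what was read before; the only condition is
`accept_reads`: the answer is determined by the contents of the places read) and answers that `z` is
a sum iff `accept z M`, a condition which is nondecreasing in the contents of the memory. -/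
structure LiteralDS (N K s r : ℕ) where
  /-- the contents of the cells -/
  cell : Fin s → (Position N K × Bool → Bool) → ℝ
  cell_mono : ∀ c, Monotone (cell c)
  /-- the contents of the free cells of the first array -/
  free1 : Fin r → ((Fin (N + 1) × Fin K) × Bool → Bool) → ℝ
  free1_mono : ∀ c, Monotone (free1 c)
  /-- the contents of the free cells of the second array -/
  free2 : Fin r → ((Fin (N + 1) × Fin K) × Bool → Bool) → ℝ
  free2_mono : ∀ c, Monotone (free2 c)
  /-- the places read -/
  reads : ℤ → (Place s r → ℝ) → Finset (Place s r)
  /-- the answer is positive -/
  accept : ℤ → (Place s r → ℝ) → Prop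
  accept_mono : ∀ z M M', M ≤ M' → accept z M → accept z M'
  accept_reads : ∀ z M M', (∀ c ∈ reads z M, M' c = M c) → (accept z M' ↔ accept z M)

variable {N K s r : ℕ}

/-- The contents of the memory. -/
def LiteralDS.mem (P : LiteralDS N K s r) (y : Position N K × Bool → Bool) : Place s r → ℝ
  | .inl c => P.cell c y
  | .inr (.inl c) => P.free1 c (part false y)
  | .inr (.inr c) => P.free2 c (part true y)

/-- The answer to the query `z` is positive. -/
def LiteralDS.out (P : LiteralDS N K s r) (y : Position N K × Bool → Bool) (z : ℤ) : Prop :=
  P.accept z (P.mem y)

/-- The number of places read for the query `z`. -/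
def LiteralDS.cost (P : LiteralDS N K s r) (y : Position N K × Bool → Bool) (z : ℤ) : ℕ :=
  (P.reads z (P.mem y)).card

/-- The random data structure (`P ω` with `ω ∈ Ω` uniform) solves 3SUM-Indexing for arrays of at most
`n` integers from `0, …, N`, with negations that are unreliable at the rate `1 / D`: for all arrays
(given with tags) and every query `z`: if `z` is a sum of an element of the first and an element of
the second array then the answer is positive with probability at least `1 / 2 + 2 δ` if each negated
bit is stuck at `0` with probability `1 / D`; if `z` is not such a sum, then the answer is positive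
with probability at most `1 / 2 - δ` if there are no faults, and the expected number of places read
is at most `t`, whatever the set `Z` of the faulty negated bits is. -/
def Solves (n : ℕ) {Ω : Type} [Fintype Ω] (P : Ω → LiteralDS N K s r) (D : ℕ) (δ t : ℝ) : Prop :=
  ∀ x : Position N K → Bool, OneTag x → (array x false).card ≤ n → (array x true).card ≤ n →
    ∀ z : ℤ,
      (IsSum (array x false) (array x true) z →
        1 / 2 + 2 * δ ≤ faultyProbability (fun ω y => (P ω).out y z) D x) ∧
      (¬ IsSum (array x false) (array x true) z →
        probability (fun ω y => (P ω).out y z) x ≤ 1 / 2 - δ ∧
        ∀ Z : Set (Position N K),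
          (∑ ω, ((P ω).cost (literals x Z) z : ℝ)) / Fintype.card Ω ≤ t)

end Pool.Agent.Q226.DSS
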