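import Pool.Agent.Q226.DSS.Defs
import Pool.Agent.Q226.DSU.Rl
import Pool.Agent.H525R4.Mono.SumLower

/-! # 3SUM-Indexing with unreliable negations -/

set_option autoImplicit false

open Finset

namespace Pool.Agent.Q226.DSS

open Pool.Agent.Q226.FL2 Pool.Agent.Q226.FLT Pool.Agent.H525R4.Mono Pool.Agent.Q226.DSU

variable {N K s r : ℕ}

/-- the bits of two arrays -/
def bits (N : ℕ) (A B : Finset ℤ) : Bool × Fin (N + 1) → Bool :=
  fun p => decide ((((p.2 : ℕ) : ℤ)) ∈ if p.1 = true then B else A)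

/-- the bits of one array -/
def bits1 (N : ℕ) (A : Finset ℤ) : Fin (N + 1) → Bool := fun v => decide (((v : ℕ) : ℤ) ∈ A)

lemma bits_mono {A A' B B' : Finset ℤ} (h : A ⊆ A') (h' : B ⊆ B') : bits N A B ≤ bits N A' B' := by
  rintro ⟨b, v⟩
  unfold bits
  rcases b with _ | _
  · by_cases h1 : ((v : ℕ) : ℤ) ∈ A
    · simp [h1, h h1]
    · simp [h1]
  · by_cases h1 : ((v : ℕ) : ℤ) ∈ B
    · simp [h1, h' h1]
    · simp [h1]

lemma bits1_mono {A A' : Finset ℤ} (h : A ⊆ A') : bits1 N A ≤ bits1 N A' := by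
  intro v
  unfold bits1
  by_cases h1 : ((v : ℕ) : ℤ) ∈ A
  · simp [h1, h h1]
  · simp [h1]

lemma part_false (t : Bool × Fin (N + 1) → Fin K) (A B : Finset ℤ) :
    part false (rl1 t (bits N A B)) = rl1 (fun v => t (false, v)) (bits1 N A) := by
  funext ⟨⟨v, k⟩, b⟩
  rfl

lemma part_true (t : Bool × Fin (N + 1) → Fin K) (A B : Finset ℤ) :
    part true (rl1 t (bits N A B)) = rl1 (fun v => t (true, v)) (bits1 N B) := by
  funext ⟨⟨v, k⟩, b⟩
  rfl

lemma array_host (t : Bool × Fin (N + 1) → Fin K) {A B : Finset ℤ} (hA : ∀ x ∈ A, 0 ≤ x ∧ x ≤ N)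
    (hB : ∀ x ∈ B, 0 ≤ x ∧ x ≤ N) (b : Bool) :
    array (host t (bits N A B)) b = if b = true then B else A := by
  ext x
  unfold array
  simp only [mem_image, mem_filter, mem_univ, true_and, host_ex]
  unfold bits
  simp only [decide_eq_true_eq]
  constructor
  · rintro ⟨v, hv, rfl⟩
    exact hv
  · intro hx
    have h1 : 0 ≤ x ∧ x ≤ N := by
      rcases b with _ | _
      · exact hA x (by simpa using hx)
      · exact hB x (by simpa using hx)
    refine ⟨⟨x.toNat, by omega⟩, ?_, ?_⟩
    · have h2 : ((x.toNat : ℕ) : ℤ) = x := Int.toNat_of_nonneg h1.1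
      show ((x.toNat : ℕ) : ℤ) ∈ _
      rw [h2]
      exact hx
    · exact Int.toNat_of_nonneg h1.1

/-- the monotone structure with random tags -/
def toMono (P : LiteralDS N K s r) (t : Bool × Fin (N + 1) → Fin K) : SumDS s r where
  cell c A B := P.cell c (rl1 t (bits N A B))
  cell_mono c _ _ _ _ h h' := P.cell_mono c (rl1_mono t (bits_mono h h'))
  free1 c A := P.free1 c (rl1 (fun v => t (false, v)) (bits1 N A))
  free1_mono c _ _ h := P.free1_mono c (rl1_mono _ (bits1_mono h))
  free2 c B := P.free2 c (rl1 (fun v => t (true, v)) (bits1 N B))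
  free2_mono c _ _ h := P.free2_mono c (rl1_mono _ (bits1_mono h))
  reads := P.reads
  accept := P.accept
  accept_mono := P.accept_mono
  accept_reads := P.accept_reads

lemma mem_toMono (P : LiteralDS N K s r) (t : Bool × Fin (N + 1) → Fin K) (A B : Finset ℤ) :
    (toMono P t).mem A B = P.mem (rl1 t (bits N A B)) := by
  funext c
  rcases c with c | c | c
  · rfl
  · show P.free1 c _ = P.free1 c _
    rw [part_false]
  · show P.free2 c _ = P.free2 c _
    rw [part_true]

lemma mem_mono (P : LiteralDS N K s r) : Monotone P.mem := by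
  intro u v h c
  rcases c with c | c | c
  · exact P.cell_mono c h
  · exact P.free1_mono c fun q => h _
  · exact P.free2_mono c fun q => h _

open Classical in
theorem main {n : ℕ} {δ t : ℝ} (hδ : 0 < δ) (hδ2 : δ ≤ 1 / 2) (ht : 1 ≤ t)
    (hnt : 400 * t * Real.logb 2 ((n + r) / δ) ≤ δ * n) (hN : n ^ 2 ≤ N) {D : ℕ} (hD : 1 ≤ D)
    (hK : D * Real.log (4 * (N + 1) / δ) ≤ K) {Ω : Type} [Fintype Ω] [Nonempty Ω]
    (P : Ω → LiteralDS N K s r) (hP : Solves n P D δ t) :
    δ ^ 2 * (n : ℝ) ^ 2 ≤ 1600 * s * t * Real.logb 2 ((n + r) / δ) := by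
  have hDR : (1 : ℝ) ≤ D := by exact_mod_cast hD
  have hNR : (0 : ℝ) ≤ N := Nat.cast_nonneg _
  have hcard : Fintype.card (Bool × Fin (N + 1)) = 2 * (N + 1) := by
    rw [Fintype.card_prod, Fintype.card_fin, Fintype.card_bool]
  have hK0 : 0 < K := by
    have h1 : 0 < Real.log (4 * (N + 1) / δ) := by
      apply Real.log_pos
      rw [lt_div_iff₀ hδ]
      linarith
    have h2 : (0 : ℝ) < K := lt_of_lt_of_le (by positivity) hK
    exact_mod_cast h2
  have hK2 : D * Real.log (2 * Fintype.card (Bool × Fin (N + 1)) / δ) ≤ K := by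
    refine le_trans (le_of_eq ?_) hK
    rw [hcard]
    push_cast
    ring_nf
  have : Nonempty (Fin K) := ⟨⟨0, hK0⟩⟩
  set c : ℝ := ((Fintype.card (Ω × (Bool × Fin (N + 1) → Fin K)) : ℕ) : ℝ) with hc
  have hc0 : 0 < c := by
    rw [hc]
    exact_mod_cast Fintype.card_pos
  have hmonoF : ∀ (z : ℤ) (ω : Ω) (u v : Position N K × Bool → Bool), u ≤ v →
      (P ω).out u z → (P ω).out v z := by
    intro z ω u v huv he
    exact (P ω).accept_mono z _ _ (mem_mono (P ω) huv) he
  have hout : ∀ (o : Ω × (Bool × Fin (N + 1) → Fin K)) (A B : Finset ℤ) (z : ℤ),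
      (toMono (P o.1) o.2).out A B z ↔ (P o.1).out (rl1 o.2 (bits N A B)) z := by
    intro o A B z
    unfold SumDS.out LiteralDS.out
    rw [mem_toMono]
    exact Iff.rfl
  have hcost : ∀ (o : Ω × (Bool × Fin (N + 1) → Fin K)) (A B : Finset ℤ) (z : ℤ),
      (toMono (P o.1) o.2).cost A B z = (P o.1).cost (rl1 o.2 (bits N A B)) z := by
    intro o A B z
    unfold SumDS.cost LiteralDS.cost
    rw [mem_toMono]
    rfl
  refine sum_lower hδ hδ2 ht hnt hN (Ω := Ω × (Bool × Fin (N + 1) → Fin K)) (fun _ => 1 / c)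
    (fun o => toMono (P o.1) o.2) ⟨fun _ => by positivity, ?_, ?_⟩
  · rw [sum_const, card_univ, nsmul_eq_mul]
    show c * (1 / c) = 1
    field_simp
  intro A B hAn hBn hA hB z
  have hf := fun t : Bool × Fin (N + 1) → Fin K => array_host t hA hB false
  have ht' := fun t : Bool × Fin (N + 1) → Fin K => array_host t hA hB true
  simp only [Bool.false_eq_true, if_false] at hf
  simp only [if_true] at ht'
  have hSol := fun t : Bool × Fin (N + 1) → Fin K =>
    hP (host t (bits N A B)) (fun e k k' => host_one t _ e k k') (by rw [hf]; exact hAn)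
      (by rw [ht']; exact hBn) z
  simp only [hf, ht'] at hSol
  constructor
  · rw [sum_const, nsmul_eq_mul, mul_one_div, le_div_iff₀ hc0]
    by_cases he : IsSum A B z
    · have h1 := one_yes (D := D) hD hK0 hδ (by rw [hcard]; positivity) hK2
        (fun ω y => (P ω).out y z) (fun ω u v huv => hmonoF z ω u v huv) (bits N A B)
        (A := 1 / 2 + δ) (fun t => by
          have h2 := (hSol t).1 he
          linarith)
      refine h1.trans (le_of_eq ?_)
      congr 2
      ext o
      simp only [mem_filter, mem_univ, true_and, he, iff_true, hout]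
    · have h1 := one_no hK0 (fun ω y => (P ω).out y z)
        (fun ω u v huv => hmonoF z ω u v huv) (bits N A B)
        (B := 1 / 2 - δ) (fun t => ((hSol t).2 he).1)
      have h3 := Finset.card_filter_add_card_filter_not (s := univ)
        (fun o : Ω × (Bool × Fin (N + 1) → Fin K) => (P o.1).out (rl1 o.2 (bits N A B)) z)
      rw [card_univ] at h3
      have h4 : c = ((univ.filter fun o : Ω × (Bool × Fin (N + 1) → Fin K) =>
          (P o.1).out (rl1 o.2 (bits N A B)) z).card : ℝ) +
          ((univ.filter fun o : Ω × (Bool × Fin (N + 1) → Fin K) =>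
          ¬ (P o.1).out (rl1 o.2 (bits N A B)) z).card : ℝ) := by
        rw [hc, ← h3]
        push_cast
        rfl
      have h5 : (1 / 2 + δ) * c ≤ ((univ.filter fun o : Ω × (Bool × Fin (N + 1) → Fin K) =>
          ¬ (P o.1).out (rl1 o.2 (bits N A B)) z).card : ℝ) := by
        have h6 : ((univ.filter fun o : Ω × (Bool × Fin (N + 1) → Fin K) =>
          (P o.1).out (rl1 o.2 (bits N A B)) z).card : ℝ) ≤ (1 / 2 - δ) * c := by
          refine le_trans (le_of_eq ?_) h1
          congr 2
        linarith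
      refine h5.trans (le_of_eq ?_)
      congr 2
      ext o
      simp only [mem_filter, mem_univ, true_and, he, iff_false, hout]
  · intro he
    have h1 : ∀ t' : Bool × Fin (N + 1) → Fin K,
        (∑ ω, ((P ω).cost (rl1 t' (bits N A B)) z : ℝ)) ≤ t * Fintype.card Ω := by
      intro t'
      have h2 := ((hSol t').2 he).2 {p | p.2 = t' p.1}
      rw [← rl1_eq, div_le_iff₀ (by exact_mod_cast Fintype.card_pos)] at h2
      exact h2
    have h2 : ∑ o : Ω × (Bool × Fin (N + 1) → Fin K),
        1 / c * ((toMono (P o.1) o.2).cost A B z : ℝ) =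
        1 / c * ∑ t' : Bool × Fin (N + 1) → Fin K,
          ∑ ω, ((P ω).cost (rl1 t' (bits N A B)) z : ℝ) := by
      rw [← mul_sum, Fintype.sum_prod_type, sum_comm]
      refine congrArg _ (sum_congr rfl fun t' _ => sum_congr rfl fun ω _ => ?_)
      exact congrArg _ (hcost (ω, t') A B z)
    rw [h2]
    have h3 : ∑ t' : Bool × Fin (N + 1) → Fin K,
        ∑ ω, ((P ω).cost (rl1 t' (bits N A B)) z : ℝ) ≤ t * c := by
      refine (sum_le_sum fun t' _ => h1 t').trans (le_of_eq ?_)
      rw [sum_const, card_univ, nsmul_eq_mul, hc, Fintype.card_prod]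
      push_cast
      ring
    calc 1 / c * ∑ t' : Bool × Fin (N + 1) → Fin K,
          ∑ ω, ((P ω).cost (rl1 t' (bits N A B)) z : ℝ)
        ≤ 1 / c * (t * c) := mul_le_mul_of_nonneg_left h3 (by positivity)
      _ = t := by field_simp

end Pool.Agent.Q226.DSS
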